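import Mathlib
import Pool.Agent.R202.RS.Fin1
import Pool.Agent.R202.RS.Prague
import Pool.Agent.R202.RS.NormPoly
import Pool.Agent.R202.RS.Lower
import Pool.Agent.R202.RS.Arith
import Pool.Agent.R202.RS.Reduce
import Pool.Agent.R202.RS.Unitary
import Pool.Agent.R202.RS.MainK
import Pool.Agent.R202.RS.Sharp

/-!
# Rémond's inequality outside the relatively reciprocal numbers

Let `Γ` be any group of nonzero algebraic numbers, `F = ℚ(Γ_div)`, and let `α ≠ 0` be an algebraic
number whose minimal polynomial over `F` has all its coefficients in some subfield `E` of `F` which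
is totally real or a CM field (possibly of infinite degree over `ℚ`). If `1 / conj α` is not a
conjugate of `α` over `F`, then Rémond's inequality `h(α) ≥ c / D_Γ(α)` holds with the absolute
constant `c = (1 / 2) log ((1 + √5) / 2)`, and this constant is attained for every `Γ`.

If `Γ` consists of numbers all of whose conjugates have absolute value `1`, then `ℚ(Γ_div)` is
itself a CM field, so the inequality holds for all `α` for which `1 / conj α` is not a conjugate of
`α` over `ℚ(Γ_div)`; for example for all `α` of `ℚ(Γ_div)` with `|α| ≠ 1`.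
-/

set_option autoImplicit false

open Polynomial ComplexConjugate

namespace Pool.Agent.Results.MP_f61260_nt.UnitaryGroups

/-- The division group of `Γ`, as a set of complex numbers. -/
def divGroup (Γ : Subgroup ℂˣ) : Set ℂ :=
  {z : ℂ | z ≠ 0 ∧ ∃ n : ℕ, 1 ≤ n ∧ ∃ g ∈ Γ, (g : ℂ) = z ^ n}

/-- The field `ℚ(Γ_div)`. -/
noncomputable def divField (Γ : Subgroup ℂˣ) : IntermediateField ℚ ℂ :=
  IntermediateField.adjoin ℚ (divGroup Γ)

/-- The degree `D_Γ(α)` of `α` over `ℚ(Γ_div)`. -/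
noncomputable def deg (Γ : Subgroup ℂˣ) (α : ℂ) : ℕ := (minpoly (divField Γ) α).natDegree

/-- For an irreducible integral polynomial `f`, the absolute logarithmic Weil height of its
roots. -/
noncomputable def height (f : ℤ[X]) : ℝ :=
  Real.log (f.map (Int.castRingHom ℂ)).mahlerMeasure / (f.natDegree : ℝ)

/-- `E` is totally real or a CM field (possibly of infinite degree): complex conjugation comes from
an endomorphism of `E` which does not depend on the embedding of `E` in `ℂ`. -/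
def RealOrCM (E : IntermediateField ℚ ℂ) : Prop :=
  ∃ c : E →+* E, ∀ (σ : E →+* ℂ) (y : E), conj (σ y) = σ (c y)

/-- `1 / conj α` is a conjugate of `α` over `ℚ(Γ_div)`. -/
def RelativelyReciprocal (Γ : Subgroup ℂˣ) (α : ℂ) : Prop :=
  aeval (conj α)⁻¹ (minpoly (divField Γ) α) = 0

/-- All elements of `Γ` are algebraic, and all their conjugates have absolute value `1`. -/
def Unitary (Γ : Subgroup ℂˣ) : Prop :=
  ∀ g ∈ Γ, IsAlgebraic ℚ (g : ℂ) ∧ ∀ w ∈ (minpoly ℚ (g : ℂ)).aroots ℂ, ‖w‖ = 1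

/-- The absolute constant `(1 / 2) log ((1 + √5) / 2)`. -/
noncomputable def const : ℝ := Real.log Real.goldenRatio / 2

/-- **Rémond's inequality outside the relatively reciprocal numbers.** -/
theorem result :
    (∀ Γ : Subgroup ℂˣ, (∀ g ∈ Γ, IsAlgebraic ℚ (g : ℂ)) →
      ∀ E : IntermediateField ℚ ℂ, E ≤ divField Γ → RealOrCM E →
      ∀ α : ℂ, α ≠ 0 → IsAlgebraic ℚ α → (∀ i, ((minpoly (divField Γ) α).coeff i : ℂ) ∈ E) →
        ¬ RelativelyReciprocal Γ α →
        ∀ f : ℤ[X], Irreducible f → aeval α f = 0 → const / deg Γ α ≤ height f) ∧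
    (∀ Γ : Subgroup ℂˣ, Unitary Γ → RealOrCM (divField Γ) ∧
      ∀ α : ℂ, α ≠ 0 → IsAlgebraic ℚ α → ¬ RelativelyReciprocal Γ α →
        ∀ f : ℤ[X], Irreducible f → aeval α f = 0 → const / deg Γ α ≤ height f) ∧
    (∀ Γ : Subgroup ℂˣ, ∃ α : ℂ, α ≠ 0 ∧ α ∈ divField Γ ∧ ¬ RelativelyReciprocal Γ α ∧
      ∃ f : ℤ[X], Irreducible f ∧ aeval α f = 0 ∧ height f = const / deg Γ α) := by
  have hlow := R202.RS.lower R202.RS.prague
  have hK := R202.RS.mainK R202.RS.normPoly hlow R202.RS.arith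
  have key : ∀ Γ : Subgroup ℂˣ, (∀ g ∈ Γ, IsAlgebraic ℚ (g : ℂ)) →
      ∀ E : IntermediateField ℚ ℂ, E ≤ divField Γ → RealOrCM E →
      ∀ α : ℂ, α ≠ 0 → IsAlgebraic ℚ α → (∀ i, ((minpoly (divField Γ) α).coeff i : ℂ) ∈ E) →
        ¬ RelativelyReciprocal Γ α →
        ∀ f : ℤ[X], Irreducible f → aeval α f = 0 → const / deg Γ α ≤ height f := by
    intro Γ hΓ E hEF hE α h0 hα hc hne f hf hfα
    exact R202.RS.main_F hK R202.RS.reduce (divField Γ) E hEF
      (R202.RS.isAlgebraic_of_le hEF (R202.RS.isAlgebraic_divField hΓ)) hE α h0 hα hc hne f hf hfα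
  refine ⟨key, fun Γ hΓ => ?_, fun Γ => ?_⟩
  · have h1 : RealOrCM (divField Γ) := R202.RS.divField_realOrCM R202.RS.unitary Γ hΓ
    exact ⟨h1, fun α h0 hα hne f hf hfα =>
      key Γ (fun g hg => (hΓ g hg).1) (divField Γ) le_rfl h1 α h0 hα (fun i => Subtype.coe_prop _)
        hne f hf hfα⟩
  · obtain ⟨h1, h2, h3, h4, h5, h6⟩ := R202.RS.sharp (divField Γ)
      (R202.RS.rootsOfUnity_mem_divField Γ)
    refine ⟨((Real.goldenRatio : ℝ) : ℂ), ?_, h1, h3, X ^ 2 - X - 1, h4, h5, ?_⟩
    · exact_mod_cast Real.goldenRatio_pos.ne'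
    · rw [height, h6, deg, h2, const, Nat.cast_one, div_one]

end Pool.Agent.Results.MP_f61260_nt.UnitaryGroups
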